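import Pool.Agent.H874R3.MQ.Stmts

/-! Task MQ-VOL: causal solution operator of a Volterra equation of the second kind with smooth
kernel on the half line `Iio 1`, by the Neumann series; smoothness by bootstrapping with `TaskDer`. -/

set_option autoImplicit false

open Real Set MeasureTheory
open scoped ContDiff

namespace Pool.Agent.H874R3.MQ

namespace Vol

/-- the Neumann iterates -/
noncomputable def TI (M : ℝ → ℝ → ℝ) (c : ℝ) (F : ℝ → ℝ) : ℕ → ℝ → ℝ
  | 0 => F
  | n + 1 => fun s => ∫ x in c..s, M s x * TI M c F n x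

theorem TI_succ (M : ℝ → ℝ → ℝ) (c : ℝ) (F : ℝ → ℝ) (n : ℕ) (s : ℝ) :
    TI M c F (n + 1) s = ∫ x in c..s, M s x * TI M c F n x := rfl

theorem TI_zero_of_le {M : ℝ → ℝ → ℝ} {c : ℝ} {F : ℝ → ℝ} (hF : ∀ s ≤ c, F s = 0) (n : ℕ) :
    ∀ s ≤ c, TI M c F n s = 0 := by
  induction n with
  | zero => exact hF
  | succ n ih =>
    intro s hs
    rw [TI_succ]
    have h : ∫ x in c..s, M s x * TI M c F n x = ∫ x in c..s, (0 : ℝ) := by
      apply intervalIntegral.integral_congr
      intro x hx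
      rw [uIcc_of_ge hs] at hx
      show M s x * TI M c F n x = 0
      rw [ih x hx.2, mul_zero]
    rw [h, intervalIntegral.integral_zero]

theorem TI_cont (hDer : TaskDer) {M : ℝ → ℝ → ℝ} {c : ℝ} (hc : c < 1)
    (hM : ContDiffOn ℝ ∞ (Function.uncurry M) (Iio 1 ×ˢ univ)) {F : ℝ → ℝ}
    (hF : ContinuousOn F (Iio 1)) (n : ℕ) : ContinuousOn (TI M c F n) (Iio 1) := by
  induction n with
  | zero => exact hF
  | succ n ih =>
    intro s hs
    exact (hDer M c (TI M c F n) hc hM ih s hs).continuousAt.continuousWithinAt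

theorem M_cont {M : ℝ → ℝ → ℝ}
    (hM : ContDiffOn ℝ ∞ (Function.uncurry M) (Iio 1 ×ˢ univ)) {s : ℝ} (hs : s < 1) :
    Continuous (M s) := by
  have h := hM.continuousOn
  rw [← continuousOn_univ]
  have h2 : ContinuousOn (fun x : ℝ => Function.uncurry M (s, x)) univ :=
    h.comp (by fun_prop) (fun x _ => ⟨hs, mem_univ _⟩)
  exact h2

theorem TI_intble {M : ℝ → ℝ → ℝ}
    (hM : ContDiffOn ℝ ∞ (Function.uncurry M) (Iio 1 ×ˢ univ)) {f : ℝ → ℝ}
    (hf : ContinuousOn f (Iio 1)) {c s : ℝ} (hc : c < 1) (hs : s < 1) :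
    ContinuousOn (fun x => M s x * f x) (uIcc c s) := by
  have hsub : uIcc c s ⊆ Iio 1 := by
    intro x hx
    rcases le_total c s with h | h
    · rw [uIcc_of_le h] at hx; exact lt_of_le_of_lt hx.2 hs
    · rw [uIcc_of_ge h] at hx; exact lt_of_le_of_lt hx.2 hc
  exact (M_cont hM hs).continuousOn.mul (hf.mono hsub)

theorem TI_bound {M : ℝ → ℝ → ℝ} {c : ℝ}
    (hM : ContDiffOn ℝ ∞ (Function.uncurry M) (Iio 1 ×ˢ univ)) {F : ℝ → ℝ}
    (hF : ContinuousOn F (Iio 1)) {d : ℝ} (hd : d < 1) :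
    ∃ C B : ℝ, 0 ≤ C ∧ 0 ≤ B ∧ (∀ s ∈ Icc c d, ∀ x ∈ Icc c d, |M s x| ≤ C) ∧ ∀ n,
      ∀ s ∈ Icc c d, |TI M c F n s| ≤ B * (C * (s - c)) ^ n / n.factorial := by
  have hK : IsCompact (Icc c d ×ˢ Icc c d) := isCompact_Icc.prod isCompact_Icc
  have hsub : Icc c d ×ˢ Icc c d ⊆ Iio (1 : ℝ) ×ˢ (univ : Set ℝ) := by
    rintro ⟨s, x⟩ ⟨hs, -⟩
    exact ⟨lt_of_le_of_lt hs.2 hd, mem_univ _⟩
  obtain ⟨C, hC⟩ := hK.exists_bound_of_continuousOn (hM.continuousOn.mono hsub)
  obtain ⟨B, hB⟩ := (isCompact_Icc (a := c) (b := d)).exists_bound_of_continuousOn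
    (hF.mono (fun s hs => lt_of_le_of_lt hs.2 hd))
  refine ⟨max C 0, max B 0, le_max_right _ _, le_max_right _ _, ?_, ?_⟩
  · intro s hs x hx
    have := hC (s, x) ⟨hs, hx⟩
    exact le_trans this (le_max_left _ _)
  · intro n
    induction n with
    | zero =>
      intro s hs
      simp only [pow_zero, mul_one, Nat.factorial_zero, Nat.cast_one, div_one]
      exact le_trans (hB s hs) (le_max_left _ _)
    | succ n ih =>
      intro s hs
      set C' := max C 0 with hC'
      set B' := max B 0 with hB'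
      have hC0 : 0 ≤ C' := le_max_right _ _
      rw [TI_succ]
      have hs1 : s < 1 := lt_of_le_of_lt hs.2 hd
      have hle : ‖∫ x in c..s, M s x * TI M c F n x‖ ≤
          ∫ x in c..s, C' * (B' * (C' * (x - c)) ^ n / n.factorial) := by
        apply intervalIntegral.norm_integral_le_of_norm_le hs.1
        · refine Filter.Eventually.of_forall fun x hx => ?_
          have hx' : x ∈ Icc c d := ⟨hx.1.le, hx.2.trans hs.2⟩
          rw [Real.norm_eq_abs, abs_mul]
          have h1 : |M s x| ≤ C' := le_trans (hC (s, x) ⟨hs, hx'⟩) (le_max_left _ _)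
          exact mul_le_mul h1 (ih x hx') (abs_nonneg _) hC0
        · apply Continuous.intervalIntegrable
          fun_prop
      rw [Real.norm_eq_abs] at hle
      refine hle.trans (le_of_eq ?_)
      have hder : ∀ x ∈ uIcc c s, HasDerivAt
          (fun x => B' * (C' * (x - c)) ^ (n + 1) / (n + 1).factorial)
          (C' * (B' * (C' * (x - c)) ^ n / n.factorial)) x := by
        intro x _
        have h1 : HasDerivAt (fun x : ℝ => C' * (x - c)) C' x := by
          simpa using ((hasDerivAt_id x).sub_const c).const_mul C'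
        have h2 := ((h1.pow (n + 1)).const_mul B').div_const ((n + 1).factorial : ℝ)
        refine h2.congr_deriv ?_
        have hf : ((n + 1).factorial : ℝ) = (n + 1) * n.factorial := by
          rw [Nat.factorial_succ]; push_cast; ring
        have hn : (n.factorial : ℝ) ≠ 0 := by positivity
        have hn1 : (n : ℝ) + 1 ≠ 0 := by positivity
        rw [hf]
        push_cast
        field_simp
      rw [intervalIntegral.integral_eq_sub_of_hasDerivAt hder
        (by apply Continuous.intervalIntegrable; fun_prop)]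
      simp

/-- the sum of the Neumann series -/
noncomputable def VV (M : ℝ → ℝ → ℝ) (c : ℝ) (F : ℝ → ℝ) (s : ℝ) : ℝ := ∑' n, TI M c F n s

theorem TI_unif {M : ℝ → ℝ → ℝ} {c : ℝ}
    (hM : ContDiffOn ℝ ∞ (Function.uncurry M) (Iio 1 ×ˢ univ)) {F : ℝ → ℝ}
    (hF : ContinuousOn F (Iio 1)) (hF0 : ∀ s ≤ c, F s = 0) {d : ℝ} (hcd : c ≤ d) (hd : d < 1) :
    ∃ C : ℝ, 0 ≤ C ∧ (∀ s ∈ Icc c d, ∀ x ∈ Icc c d, |M s x| ≤ C) ∧
      ∃ u : ℕ → ℝ, Summable u ∧ ∀ n, ∀ s ∈ Iic d, ‖TI M c F n s‖ ≤ u n := by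
  obtain ⟨C, B, hC, hB, hMb, hb⟩ := TI_bound hM hF hd
  refine ⟨C, hC, hMb, fun n => B * ((C * (d - c)) ^ n / n.factorial),
    (Real.summable_pow_div_factorial _).mul_left B, ?_⟩
  intro n s hs
  rcases le_total s c with h | h
  · rw [TI_zero_of_le hF0 n s h, norm_zero]
    have : 0 ≤ C * (d - c) := mul_nonneg hC (by linarith)
    positivity
  · have h1 := hb n s ⟨h, hs⟩
    rw [Real.norm_eq_abs]
    refine h1.trans ?_
    rw [mul_div_assoc]
    apply mul_le_mul_of_nonneg_left _ hB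
    apply div_le_div_of_nonneg_right _ (by positivity)
    apply pow_le_pow_left₀ (mul_nonneg hC (by linarith))
    exact mul_le_mul_of_nonneg_left (by linarith [mem_Iic.mp hs]) hC

theorem VV_cont (hDer : TaskDer) {M : ℝ → ℝ → ℝ} {c : ℝ} (hc : c < 1)
    (hM : ContDiffOn ℝ ∞ (Function.uncurry M) (Iio 1 ×ˢ univ)) {F : ℝ → ℝ}
    (hF : ContinuousOn F (Iio 1)) (hF0 : ∀ s ≤ c, F s = 0) :
    ContinuousOn (VV M c F) (Iio 1) := by
  intro s hs
  obtain ⟨d, hd1, hd2⟩ := exists_between (max_lt hc hs : max c s < 1)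
  obtain ⟨C, -, -, u, hu, hb⟩ := TI_unif hM hF hF0
    ((le_max_left c s).trans hd1.le) hd2
  have hcont : ContinuousOn (VV M c F) (Iic d) :=
    continuousOn_tsum (fun n => (TI_cont hDer hc hM hF n).mono
      (fun x hx => lt_of_le_of_lt (mem_Iic.mp hx) hd2)) hu hb
  have hsd : s < d := lt_of_le_of_lt (le_max_right c s) hd1
  exact (hcont.continuousAt (Iic_mem_nhds hsd)).continuousWithinAt

theorem VV_zero {M : ℝ → ℝ → ℝ} {c : ℝ} {F : ℝ → ℝ} (hF0 : ∀ s ≤ c, F s = 0) :
    ∀ s ≤ c, VV M c F s = 0 := by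
  intro s hs
  have : (fun n => TI M c F n s) = fun _ => 0 := funext fun n => TI_zero_of_le hF0 n s hs
  simp [VV, this]

theorem VV_eq (hDer : TaskDer) {M : ℝ → ℝ → ℝ} {c : ℝ} (hc : c < 1)
    (hM : ContDiffOn ℝ ∞ (Function.uncurry M) (Iio 1 ×ˢ univ)) {F : ℝ → ℝ}
    (hF : ContinuousOn F (Iio 1)) (hF0 : ∀ s ≤ c, F s = 0) {s : ℝ} (hs : s < 1) :
    VV M c F s = F s + ∫ x in c..s, M s x * VV M c F x := by
  rcases le_total s c with hsc | hsc
  · rw [VV_zero hF0 s hsc, hF0 s hsc]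
    have h : ∫ x in c..s, M s x * VV M c F x = ∫ x in c..s, (0 : ℝ) := by
      apply intervalIntegral.integral_congr
      intro x hx
      rw [uIcc_of_ge hsc] at hx
      show M s x * VV M c F x = 0
      rw [VV_zero hF0 x hx.2, mul_zero]
    rw [h, intervalIntegral.integral_zero, add_zero]
  · obtain ⟨C, hC, hMb, u, hu, hb⟩ := TI_unif hM hF hF0 hsc hs
    have hsum : ∀ x ≤ s, Summable fun n => TI M c F n x := fun x hx =>
      Summable.of_norm_bounded hu (fun n => hb n x hx)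
    have hint : HasSum (fun n => ∫ x in c..s, M s x * TI M c F n x)
        (∫ x in c..s, M s x * VV M c F x) := by
      apply intervalIntegral.hasSum_integral_of_dominated_convergence (fun n _ => C * u n)
      · intro n
        have := TI_intble hM (TI_cont hDer hc hM hF n) hc hs
        exact (this.mono uIoc_subset_uIcc).aestronglyMeasurable measurableSet_uIoc
      · intro n
        refine Filter.Eventually.of_forall fun x hx => ?_
        rw [uIoc_of_le hsc] at hx
        rw [norm_mul]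
        exact mul_le_mul (hMb s ⟨hsc, le_refl s⟩ x ⟨hx.1.le, hx.2⟩) (hb n x hx.2)
          (norm_nonneg _) hC
      · exact Filter.Eventually.of_forall fun x _ => hu.mul_left C
      · exact intervalIntegrable_const
      · refine Filter.Eventually.of_forall fun x hx => ?_
        rw [uIoc_of_le hsc] at hx
        exact (hsum x hx.2).hasSum.mul_left (M s x)
    have h1 : VV M c F s = TI M c F 0 s + ∑' n, TI M c F (n + 1) s :=
      (hsum s le_rfl).tsum_eq_zero_add
    rw [h1]
    congr 1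
    exact hint.tsum_eq

theorem TI_causal {M : ℝ → ℝ → ℝ} {c : ℝ} {F F' : ℝ → ℝ} {e : ℝ} (hF : ∀ s ≤ c, F s = 0)
    (hF' : ∀ s ≤ c, F' s = 0) (h : ∀ s < e, F s = F' s) (n : ℕ) :
    ∀ s < e, TI M c F n s = TI M c F' n s := by
  induction n with
  | zero => exact h
  | succ n ih =>
    intro s hs
    rw [TI_succ, TI_succ]
    apply intervalIntegral.integral_congr
    intro x hx
    show M s x * TI M c F n x = M s x * TI M c F' n x
    rcases le_total x c with hxc | hxc
    · rw [TI_zero_of_le hF n x hxc, TI_zero_of_le hF' n x hxc]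
    · have hxe : x ≤ s ∨ x ≤ c := by
        rcases le_total c s with h' | h'
        · rw [uIcc_of_le h'] at hx; exact Or.inl hx.2
        · rw [uIcc_of_ge h'] at hx; exact Or.inr hx.2
      rcases hxe with hx' | hx'
      · rw [ih x (lt_of_le_of_lt hx' hs)]
      · rw [TI_zero_of_le hF n x hx', TI_zero_of_le hF' n x hx']

/-- the partial derivative of a smooth kernel is a smooth kernel -/
theorem dM_smooth {M : ℝ → ℝ → ℝ}
    (hM : ContDiffOn ℝ ∞ (Function.uncurry M) (Iio 1 ×ˢ univ)) :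
    ContDiffOn ℝ ∞ (Function.uncurry (fun s x => deriv (fun σ => M σ x) s))
      (Iio 1 ×ˢ univ) := by
  have hopen : IsOpen (Iio (1 : ℝ) ×ˢ (univ : Set ℝ)) := isOpen_Iio.prod isOpen_univ
  have h1 : ContDiffOn ℝ ∞ (fderiv ℝ (Function.uncurry M)) (Iio 1 ×ˢ univ) :=
    hM.fderiv_of_isOpen hopen (by simp)
  have h2 : ContDiffOn ℝ ∞ (fun p : ℝ × ℝ => fderiv ℝ (Function.uncurry M) p ((1 : ℝ), (0 : ℝ)))
      (Iio 1 ×ˢ univ) := h1.clm_apply contDiffOn_const
  refine h2.congr ?_
  rintro ⟨s, x⟩ hp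
  have hd : DifferentiableAt ℝ (Function.uncurry M) (s, x) :=
    (hM.contDiffAt (hopen.mem_nhds hp)).differentiableAt (by simp)
  have hcurve : HasDerivAt (fun σ : ℝ => (σ, x)) ((1 : ℝ), (0 : ℝ)) s :=
    (hasDerivAt_id s).prodMk (hasDerivAt_const s x)
  have := hd.hasFDerivAt.comp_hasDerivAt s hcurve
  exact this.deriv

/-- one step of the bootstrap -/
theorem smooth_step (hDer : TaskDer) {c : ℝ} (hc : c < 1) (n : ℕ) : ∀ (M : ℝ → ℝ → ℝ) (w : ℝ → ℝ),
    ContDiffOn ℝ ∞ (Function.uncurry M) (Iio 1 ×ˢ univ) → ContDiffOn ℝ n w (Iio 1) →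
      ContDiffOn ℝ ((n + 1 : ℕ) : WithTop ℕ∞) (fun s => ∫ x in c..s, M s x * w x) (Iio 1) := by
  induction n with
  | zero =>
    intro M w hM hw
    have hwc : ContinuousOn w (Iio 1) := hw.continuousOn
    have hdM := dM_smooth hM
    have hder := hDer M c w hc hM hwc
    have hdiag : ContDiffOn ℝ ∞ (fun s => M s s) (Iio 1) :=
      hM.comp (f := fun s : ℝ => (s, s)) (contDiff_id.prodMk contDiff_id).contDiffOn
        (fun s hs => ⟨hs, mem_univ _⟩)
    rw [show (((0 + 1 : ℕ) : WithTop ℕ∞)) = 0 + 1 by norm_num]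
    rw [contDiffOn_succ_iff_deriv_of_isOpen isOpen_Iio]
    refine ⟨fun s hs => (hder s hs).differentiableAt.differentiableWithinAt, by simp, ?_⟩
    have hcont : ContinuousOn (fun s => M s s * w s +
        ∫ x in c..s, deriv (fun σ => M σ x) s * w x) (Iio 1) := by
      apply (hdiag.continuousOn.mul hwc).add
      intro s hs
      exact (hDer _ c w hc hdM hwc s hs).continuousAt.continuousWithinAt
    refine (contDiffOn_zero.mpr hcont).congr (fun s hs => (hder s hs).deriv)
  | succ n ih =>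
    intro M w hM hw
    have hwc : ContinuousOn w (Iio 1) := hw.continuousOn
    have hdM := dM_smooth hM
    have hder := hDer M c w hc hM hwc
    have hdiag : ContDiffOn ℝ ∞ (fun s => M s s) (Iio 1) :=
      hM.comp (f := fun s : ℝ => (s, s)) (contDiff_id.prodMk contDiff_id).contDiffOn
        (fun s hs => ⟨hs, mem_univ _⟩)
    rw [show (((n + 1 + 1 : ℕ) : WithTop ℕ∞)) = ((n + 1 : ℕ) : WithTop ℕ∞) + 1 by push_cast; rfl]
    rw [contDiffOn_succ_iff_deriv_of_isOpen isOpen_Iio]
    refine ⟨fun s hs => (hder s hs).differentiableAt.differentiableWithinAt, ?_, ?_⟩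
    · intro h
      exact absurd h (by simp)
    have h1 : ContDiffOn ℝ ((n + 1 : ℕ) : WithTop ℕ∞) (fun s => M s s * w s) (Iio 1) :=
      (hdiag.of_le (by exact_mod_cast le_top)).mul hw
    have h2 := ih (fun s x => deriv (fun σ => M σ x) s) w hdM
      (hw.of_le (by exact_mod_cast Nat.le_succ n))
    exact (h1.add h2).congr (fun s hs => (hder s hs).deriv)

theorem VV_smooth (hDer : TaskDer) {M : ℝ → ℝ → ℝ} {c : ℝ} (hc : c < 1)
    (hM : ContDiffOn ℝ ∞ (Function.uncurry M) (Iio 1 ×ˢ univ)) {F : ℝ → ℝ} (hF : XX c F) :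
    ContDiffOn ℝ ∞ (VV M c F) (Iio 1) := by
  rw [contDiffOn_infty]
  intro n
  induction n with
  | zero => exact contDiffOn_zero.mpr (VV_cont hDer hc hM hF.1.continuousOn hF.2)
  | succ n ih =>
    have h1 := smooth_step hDer hc n M (VV M c F) hM ih
    have h2 : ContDiffOn ℝ ((n + 1 : ℕ) : WithTop ℕ∞) F (Iio 1) :=
      hF.1.of_le (by exact_mod_cast le_top)
    exact (h2.add h1).congr (fun s hs => VV_eq hDer hc hM hF.1.continuousOn hF.2 hs)

end Vol

open Vol in
theorem taskVol (hDer : TaskDer) : TaskVol := by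
  intro M c hc hM
  refine ⟨VV M c, ?_, ?_⟩
  · intro F hF
    exact ⟨⟨VV_smooth hDer hc hM hF, VV_zero hF.2⟩,
      fun s hs => VV_eq hDer hc hM hF.1.continuousOn hF.2 hs⟩
  · intro F F' e hF hF' h s hs
    simp only [VV]
    exact tsum_congr fun n => TI_causal hF.2 hF'.2 h n s hs

end Pool.Agent.H874R3.MQ
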